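import Pool.Agent.Run7.h291.WC.B7

set_option autoImplicit false

/-! The law of the logarithm in windows: one level, and from a grid of levels to all levels -/

namespace Run7.h701.LW

open Finset Filter MeasureTheory Topology Complex
open Pool.Agent.N748.MG hiding Phi
open Pool.Agent.N748.MJ Run7.h291.WN Run7.h291.WC

/-- the weight below the level `y` -/
noncomputable def Zy (k y δ u : ℝ) : ℝ := Set.indicator {v : ℝ | mz δ v ≤ Real.exp (Vl k y δ)} (Zk k δ) u

lemma chi_zero {k y η δ u : ℝ} (hη : 0 < η) (h0 : 0 < δ) (h1 : δ ≤ 1 / 16)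
    (h : Real.exp (Vl k (y + η) δ) < mz δ u) : chi k y η δ u = 0 := by
  have hs := sg_pos h0 h1
  have hmp : 0 < mz δ u := lt_trans (Real.exp_pos _) h
  rw [chi_eq hη h0 h1 hmp]
  refine phy_zero hη ?_
  have e1 : YY k δ u = (Real.log (mz δ u) - k * Real.log (1 / δ)) / sg δ := rfl
  rw [e1, le_div_iff₀ hs]
  have h2 := (Real.lt_log_iff_exp_lt hmp).2 h
  unfold Vl at h2
  linarith

lemma Zy_le {k y δ : ℝ} (h0 : 0 ≤ δ) (u : ℝ) : Zy k y δ u ≤ Zk k δ u :=
  Set.indicator_le_self' (fun v _ => Zk_nn h0 v) u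

lemma Zy_nn {k y δ : ℝ} (h0 : 0 ≤ δ) (u : ℝ) : 0 ≤ Zy k y δ u :=
  Set.indicator_nonneg (fun v _ => Zk_nn h0 v) u

lemma Zy_mono {k y y' δ : ℝ} (h0 : 0 ≤ δ) (h : y ≤ y') (u : ℝ) : Zy k y δ u ≤ Zy k y' δ u := by
  unfold Zy
  refine Set.indicator_le_indicator_of_subset (fun v hv => ?_) (fun v => Zk_nn h0 v) u
  refine le_trans hv (Real.exp_le_exp.2 ?_)
  unfold Vl
  have := mul_le_mul_of_nonneg_right h (sg_nn δ)
  linarith

lemma Zy_le_chi {k y η δ : ℝ} (hη : 0 ≤ η) (h0 : 0 ≤ δ) (u : ℝ) : Zy k y δ u ≤ Zk k δ u * chi k y η δ u := by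
  unfold Zy
  by_cases hu : mz δ u ≤ Real.exp (Vl k y δ)
  · rw [Set.indicator_of_mem (show u ∈ {v : ℝ | mz δ v ≤ Real.exp (Vl k y δ)} from hu), chi_one hη hu, mul_one]
  · rw [Set.indicator_of_notMem (show u ∉ {v : ℝ | mz δ v ≤ Real.exp (Vl k y δ)} from hu)]
    exact mul_nonneg (Zk_nn h0 u) (chi_nn u)

lemma chi_le_Zy {k y η δ : ℝ} (hη : 0 < η) (h0 : 0 < δ) (h1 : δ ≤ 1 / 16) (u : ℝ) :
    Zk k δ u * chi k y η δ u ≤ Zy k (y + η) δ u := by
  unfold Zy
  by_cases hu : mz δ u ≤ Real.exp (Vl k (y + η) δ)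
  · rw [Set.indicator_of_mem (show u ∈ {v : ℝ | mz δ v ≤ Real.exp (Vl k (y + η) δ)} from hu)]
    exact mul_le_of_le_one_right (Zk_nn h0.le u) (chi_le u)
  · rw [Set.indicator_of_notMem (show u ∉ {v : ℝ | mz δ v ≤ Real.exp (Vl k (y + η) δ)} from hu),
      chi_zero hη h0 h1 (not_le.1 hu), mul_zero]

lemma Zy_int {k y δ : ℝ} (hk : 0 ≤ k) (h1 : δ ≤ 1 / 16) (a b : ℝ) : IntervalIntegrable (Zy k y δ) volume a b := by
  have hm : MeasurableSet {v : ℝ | mz δ v ≤ Real.exp (Vl k y δ)} :=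
    (isClosed_le (TMA.cont h1) continuous_const).measurableSet
  have hc : Continuous (Zk k δ) := Zk_cont hk h1
  exact ⟨(hc.integrableOn_Ioc).indicator hm, (hc.integrableOn_Ioc).indicator hm⟩

/-- windows at one level -/
lemma lvl (hM : S_MNB) (hLaw : S_LAW) (k D : ℝ) (hk : 1 < k) (y η τ ε : ℝ) (hη : 0 < η) (hτ : 0 < τ)
    (hτ1 : τ ≤ 1) (hε : 0 < ε) : Ev fun X δ =>
    volume {t : ℝ | 0 ≤ t ∧ t ≤ X ∧ ∃ H : ℝ, Hx k (y + 4 * η) δ ≤ H ∧ H ≤ δ ^ (-D) ∧
      τ ≤ |(1 / H) * (∫ u in t..(t + H), Zk k δ u * chi k y η δ u) - mm y η|} ≤ ENNReal.ofReal (ε * X) := by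
  have hk0 : 0 < k := by linarith
  obtain ⟨n, c, hn, hc, hck, Hw⟩ := win hM hLaw k hk
  set W : ℝ := k ^ 2 + 1 with hW
  have hW0 : 0 < W := by positivity
  set m : ℝ := mm y η with hm
  have hm0 : 0 < m := mm_pos hη
  have hm1 : m ≤ 1 := mm_le y η
  set s : ℝ := min (τ * ε / 192) (ε / 8) with hs
  have hs0 : 0 < s := lt_min (by positivity) (by positivity)
  set e1 : ℝ := min (s ^ 2) (τ * ε / 384) with he1
  have he10 : 0 < e1 := lt_min (by positivity) (by positivity)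
  have he11 : e1 ≤ s ^ 2 := min_le_left _ _
  have he12 : e1 ≤ τ * ε / 384 := min_le_right _ _
  have hb : 0 < 2 * k * η := by positivity
  refine ((((((Hw y η η (y + 3 * η) W hη hη (by linarith) le_rfl hm0 e1 he10).up.and
    (mean_chi hLaw k y η W hk0 hη le_rfl e1 he10).up).and
    (Ev.win (D := k ^ 2) (c := 1 / 2) (e := 1) (by norm_num) one_pos)).and
    ((Hx_small k (y + 3 * η)).and (Ev.win (D := D) (c := 1 / 2) (e := 1) (by norm_num) one_pos))).and
    (of_L (exp_small 0 16 (2 * k * η) τ hb hτ))).and (FP_chi k y η W hk0 hη le_rfl)).mono ?_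
  rintro X δ hX1 h0 h1 ⟨⟨⟨⟨⟨Hw, Hc⟩, w1⟩, hs1, w2⟩, s1⟩, hFP⟩
  rw [Real.rpow_one] at w1 w2
  have hX0 : 0 < X := by linarith
  obtain ⟨E1, E2⟩ := Hw (2 * X) (by linarith)
  have E3 := (abs_le.1 (Hc (2 * X) (by linarith))).2
  set N : ℕ := NS δ with hN
  set f : ℝ → ℝ := gg n N k y η η c W δ with hf
  have hfc : Continuous f := gg_cont hk0.le hη.le h1
  have hf0 : ∀ u, 0 ≤ f u := fun u => gg_nn h0.le u
  set F : ℝ → ℝ := fun u => FP k W δ u * chi k y η δ u with hF
  have hFc : Continuous F := (FP_cont hk0.le h1).mul (chi_cont hη.le h1)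
  have hfF : ∀ u, f u ≤ F u := fun u => gg_le_chi h0.le u
  have hgc : Continuous fun u => f u / m := hfc.div_const m
  have hE1 : ∫ t in (0:ℝ)..(2 * X), |Av (Hx k (y + 3 * η) δ) (fun u => f u / m) t - 1| ≤ s * (2 * X) :=
    mean_of_sq (g := fun t => Av (Hx k (y + 3 * η) δ) (fun u => f u / m) t - 1)
      ((Av_cont hgc).sub continuous_const) hs0 (by linarith)
      (E1.trans (mul_le_mul_of_nonneg_right he11 (by linarith)))
  have hE2 : ∫ t in (0:ℝ)..(2 * X), (F t - f t) ≤ (2 * e1) * (2 * X) := by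
    rw [intervalIntegral.integral_sub (hFc.intervalIntegrable _ _) (hfc.intervalIntegrable _ _)]
    linarith
  have hmain := asm (f := f) (F := F) (Z := fun u => Zk k δ u * chi k y η δ u) (X := X) (l := Hx k (y + 3 * η) δ)
    (m := m) (s := s) (τ := τ)
    (ε := ε) (q := 2 * e1) (Hlo := Hx k (y + 4 * η) δ) (Hhi := δ ^ (-D)) (B := ∅) hfc hFc hf0 hfF hX0
    (Hx_pos h0) (hs1.trans (by linarith)) hm0 hm1 hτ hτ1 hε (min_le_left _ _) (min_le_right _ _) hE1 hE2
    (by positivity) (Hx_pos h0) (by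
      rw [Hx_ratio (k := k) (x := y + 4 * η) (x' := y + 3 * η)]
      have h2 : (0 * Real.log (1 / δ) + 16) * Real.exp (-(2 * k * η * sg δ)) ≤ τ := s1
      have h3 : 2 * k * (y + 3 * η - (y + 4 * η)) * sg δ = -(2 * k * η * sg δ) := by ring
      rw [h3]
      have h4 : 0 < Hx k (y + 4 * η) δ := Hx_pos h0
      nlinarith) (w2.trans (by linarith)) (by
      intro t t0 t1 htB u hu
      exact (hFP u).2.symm)
  have hsub : {t : ℝ | 0 ≤ t ∧ t ≤ X ∧ ∃ H : ℝ, Hx k (y + 4 * η) δ ≤ H ∧ H ≤ δ ^ (-D) ∧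
      τ ≤ |(1 / H) * (∫ u in t..(t + H), Zk k δ u * chi k y η δ u) - m|} ⊆
      {t : ℝ | 0 ≤ t ∧ t ≤ X ∧ ∃ H : ℝ, Hx k (y + 4 * η) δ ≤ H ∧ H ≤ δ ^ (-D) ∧
      τ / 2 ≤ |(1 / H) * (∫ u in t..(t + H), Zk k δ u * chi k y η δ u) - m|} := by
    rintro t ⟨t0, t1, H, hH1, hH2, hH3⟩
    exact ⟨t0, t1, H, hH1, hH2, by linarith⟩
  refine (measure_mono hsub).trans (hmain.trans ?_)
  rw [measure_empty, add_zero]
  refine ENNReal.ofReal_le_ofReal (mul_le_mul_of_nonneg_right ?_ hX0.le)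
  have h5 : 48 * (2 * e1) / τ ≤ ε / 2 := by
    rw [div_le_iff₀ hτ]
    nlinarith
  linarith

/-- from a grid of levels to all levels -/
lemma lev {I : ℝ → ℝ} {c : ℕ → ℝ} {M x A η e τ : ℝ} {J : ℕ} (hη : 0 < η) (he : 0 < e)
    (hI0 : ∀ y, 0 ≤ I y) (hIm : ∀ a b, a ≤ b → I a ≤ I b) (hIM : ∀ y, I y ≤ M)
    (hc1 : ∀ j : ℕ, I (-A + j * η) ≤ c j) (hc2 : ∀ j : ℕ, c j ≤ I (-A + j * η + η))
    (hc : ∀ j : ℕ, j ≤ J → -A + j * η + 4 * η ≤ x → |c j - mm (-A + j * η) η| < τ) (hτ : 0 < τ)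
    (hJ : A ≤ -A + J * η) (hM1 : A ≤ x → M < 1 + e) (hM2 : x < -A + 4 * η → M < e)
    (hA1 : Phi (-A + 2 * η) ≤ e) (hA2 : 1 - e ≤ Phi A) :
    ∀ y, y ≤ x - 5 * η → |I y - Phi y| ≤ 2 * e + 2 * η + τ := by
  intro y hy
  have hp0 := Phi_nn y
  have hp1 := Phi_le_one y
  rw [abs_le]
  constructor
  · -- lower bound
    rcases le_or_gt y (-A + 2 * η) with hc3 | hc3
    · have := Phi_mono hc3
      have := hI0 y
      linarith
    · set j0 : ℕ := ⌊(y - η + A) / η⌋₊ with hj0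
      have hq : 0 ≤ (y - η + A) / η := div_nonneg (by linarith) hη.le
      have hj1 : (j0:ℝ) ≤ (y - η + A) / η := Nat.floor_le hq
      have hj2 : (y - η + A) / η < j0 + 1 := Nat.lt_floor_add_one _
      rw [le_div_iff₀ hη] at hj1
      rw [div_lt_iff₀ hη] at hj2
      rcases le_or_gt j0 J with hjJ | hjJ
      · have h1 := (abs_lt.1 (hc j0 hjJ (by linarith))).1
        have h2 := Phi_le_mm (y := -A + j0 * η) hη
        have h3 := Phi_lip (show -A + j0 * η ≤ y by linarith)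
        have h4 := hIm (-A + j0 * η + η) y (by linarith)
        have h5 := hc2 j0
        linarith
      · have hjJ' : (J:ℝ) * η ≤ j0 * η := by
          refine mul_le_mul_of_nonneg_right ?_ hη.le
          exact_mod_cast hjJ.le
        have h1 := (abs_lt.1 (hc J le_rfl (by linarith))).1
        have h2 := Phi_le_mm (y := -A + J * η) hη
        have h3 := Phi_mono hJ
        have h4 := hIm (-A + J * η + η) y (by linarith)
        have h5 := hc2 J
        linarith
  · -- upper bound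
    rcases lt_or_ge x (-A + 4 * η) with hx | hx
    · have := hM2 hx
      have := hIM y
      linarith
    · rcases le_or_gt y (-A) with hy1 | hy1
      · have h1 := (abs_lt.1 (hc 0 (Nat.zero_le _) (by push_cast; linarith))).2
        have h2 := hc1 0
        have h3 := mm_le_Phi (y := -A + ((0:ℕ):ℝ) * η) hη
        have h4 := hIm y (-A + ((0:ℕ):ℝ) * η) (by push_cast; linarith)
        have h5 := Phi_mono (show -A + ((0:ℕ):ℝ) * η + η ≤ -A + 2 * η by push_cast; linarith)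
        linarith
      · rcases le_or_gt y (-A + J * η) with hy2 | hy2
        · set j : ℕ := ⌈(y + A) / η⌉₊ with hj
          have hj1 : (y + A) / η ≤ j := Nat.le_ceil _
          have hj2 : (j:ℝ) < (y + A) / η + 1 := Nat.ceil_lt_add_one (div_nonneg (by linarith) hη.le)
          have hjJ : j ≤ J := by
            refine Nat.ceil_le.2 ?_
            rw [div_le_iff₀ hη]
            linarith
          rw [div_le_iff₀ hη] at hj1
          have hj3 : (j:ℝ) * η < y + A + η := by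
            have h2 : ((y + A) / η + 1) * η = y + A + η := by
              field_simp
            calc (j:ℝ) * η < ((y + A) / η + 1) * η := mul_lt_mul_of_pos_right hj2 hη
              _ = y + A + η := h2
          have h1 := (abs_lt.1 (hc j hjJ (by linarith))).2
          have h2 := hc1 j
          have h3 := mm_le_Phi (y := -A + j * η) hη
          have h4 := hIm y (-A + j * η) (by linarith)
          have h5 := Phi_lip (show y ≤ -A + j * η + η by linarith)
          linarith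
        · have h1 := hM1 (by linarith)
          have h2 := hIM y
          have h3 := Phi_mono (show A ≤ y by linarith)
          linarith

/-- from a grid of levels to all levels, with the full average -/
lemma lev_a {I : ℝ → ℝ} {c : ℕ → ℝ} {M x A η e τ : ℝ} {J : ℕ} (hη : 0 < η) (he : 0 < e)
    (hI0 : ∀ y, 0 ≤ I y) (hIm : ∀ a b, a ≤ b → I a ≤ I b) (hIM : ∀ y, I y ≤ M)
    (hc1 : ∀ j : ℕ, I (-A + j * η) ≤ c j) (hc2 : ∀ j : ℕ, c j ≤ I (-A + j * η + η))
    (hc : ∀ j : ℕ, j ≤ J → -A + j * η + 4 * η ≤ x → |c j - mm (-A + j * η) η| < τ) (hτ : 0 < τ)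
    (hJ : A ≤ -A + J * η) (hM : |M - Phi x| < e)
    (hA1 : Phi (-A + 4 * η) ≤ e) (hA2 : 1 - e ≤ Phi A) :
    ∀ y, |I y - Phi (min y x)| ≤ 4 * e + 7 * η + τ := by
  have hM' := abs_lt.1 hM
  have hpx := Phi_le_one x
  have H := lev (I := I) (c := c) (M := M) (x := x) (A := A) (η := η) (e := 2 * e) (τ := τ) (J := J) hη (by linarith)
    hI0 hIm hIM hc1 hc2 hc hτ hJ (fun _ => by linarith) (fun hx => by
      have := Phi_mono hx.le
      linarith) (by
      have := Phi_mono (show -A + 2 * η ≤ -A + 4 * η by linarith)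
      linarith) (by linarith)
  intro y
  rcases le_or_gt y (x - 5 * η) with hy | hy
  · rw [min_eq_left (by linarith)]
    have := H y hy
    linarith
  · have h1 := (abs_le.1 (H (x - 5 * η) le_rfl)).1
    have h2 := hIm (x - 5 * η) y hy.le
    have h3 := hIM y
    have h4 : x - 5 * η ≤ min y x := le_min hy.le (by linarith)
    have h5 := Phi_mono (min_le_right y x)
    have h6 := Phi_mono h4
    have h7 := Phi_lip (show x - 5 * η ≤ x by linarith)
    rw [abs_le]
    constructor <;> linarith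

end Run7.h701.LW
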