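import Pool.Agent.Run7.h701.LW.A

set_option autoImplicit false

/-! The law of the logarithm in windows: all levels -/

namespace Run7.h701.LW

open Finset Filter MeasureTheory Topology Complex
open Pool.Agent.N748.MG hiding Phi
open Pool.Agent.N748.MJ Run7.h291.WN Run7.h291.WC

/-- the mean over the window of the weight below the level -/
noncomputable def Jw (k y δ t H : ℝ) : ℝ := (1 / H) * ∫ u in t..(t + H), Zy k y δ u

/-- the mean over the window of the weight with the cut-off function -/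
noncomputable def Cw (k y η δ t H : ℝ) : ℝ := (1 / H) * ∫ u in t..(t + H), Zk k δ u * chi k y η δ u

lemma Zchi_int {k y η δ : ℝ} (hk : 0 ≤ k) (hη : 0 ≤ η) (h1 : δ ≤ 1 / 16) (a b : ℝ) :
    IntervalIntegrable (fun u => Zk k δ u * chi k y η δ u) volume a b :=
  ((Zk_cont hk h1).mul (chi_cont hη h1)).intervalIntegrable a b

lemma Jw_nn {k y δ t H : ℝ} (h0 : 0 ≤ δ) (hH : 0 < H) : 0 ≤ Jw k y δ t H :=
  mul_nonneg (by positivity) (intervalIntegral.integral_nonneg (by linarith) fun u _ => Zy_nn h0 u)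

lemma Jw_mono {k y y' δ t H : ℝ} (hk : 0 ≤ k) (h0 : 0 ≤ δ) (h1 : δ ≤ 1 / 16) (hH : 0 < H) (h : y ≤ y') :
    Jw k y δ t H ≤ Jw k y' δ t H := by
  unfold Jw
  refine mul_le_mul_of_nonneg_left ?_ (by positivity)
  exact intervalIntegral.integral_mono_on (by linarith) (Zy_int hk h1 _ _) (Zy_int hk h1 _ _) fun u _ => Zy_mono h0 h u

lemma Jw_le {k y δ t H : ℝ} (hk : 0 ≤ k) (h0 : 0 ≤ δ) (h1 : δ ≤ 1 / 16) (hH : 0 < H) :
    Jw k y δ t H ≤ (1 / H) * (∫ u in t..(t + H), Zk k δ u) := by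
  unfold Jw
  refine mul_le_mul_of_nonneg_left ?_ (by positivity)
  exact intervalIntegral.integral_mono_on (by linarith) (Zy_int hk h1 _ _)
    ((Zk_cont hk h1).intervalIntegrable _ _) fun u _ => Zy_le h0 u

lemma Jw_le_Cw {k y η δ t H : ℝ} (hk : 0 ≤ k) (hη : 0 ≤ η) (h0 : 0 ≤ δ) (h1 : δ ≤ 1 / 16) (hH : 0 < H) :
    Jw k y δ t H ≤ Cw k y η δ t H := by
  unfold Jw Cw
  refine mul_le_mul_of_nonneg_left ?_ (by positivity)
  exact intervalIntegral.integral_mono_on (by linarith) (Zy_int hk h1 _ _) (Zchi_int hk hη h1 _ _)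
    fun u _ => Zy_le_chi hη h0 u

lemma Cw_le_Jw {k y η δ t H : ℝ} (hk : 0 ≤ k) (hη : 0 < η) (h0 : 0 < δ) (h1 : δ ≤ 1 / 16) (hH : 0 < H) :
    Cw k y η δ t H ≤ Jw k (y + η) δ t H := by
  unfold Jw Cw
  refine mul_le_mul_of_nonneg_left ?_ (by positivity)
  exact intervalIntegral.integral_mono_on (by linarith) (Zchi_int hk hη.le h1 _ _) (Zy_int hk h1 _ _)
    fun u _ => chi_le_Zy hη h0 h1 u

/-- all levels of a grid, all windows -/
lemma grid (hM : S_MNB) (hLaw : S_LAW) (k D : ℝ) (hk : 1 < k) (A η τ ε : ℝ) (J : ℕ) (hη : 0 < η) (hτ : 0 < τ)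
    (hτ1 : τ ≤ 1) (hε : 0 < ε) : Ev fun X δ =>
    volume {t : ℝ | 0 ≤ t ∧ t ≤ X ∧ ∃ H : ℝ, 0 < H ∧ H ≤ δ ^ (-D) ∧ ∃ j : ℕ, j ≤ J ∧
      -A + j * η + 4 * η ≤ pos k δ H ∧ τ ≤ |Cw k (-A + j * η) η δ t H - mm (-A + j * η) η|} ≤
        ENNReal.ofReal (ε * X) := by
  have hk0 : 0 < k := by linarith
  have hJ0 : (0:ℝ) < (J:ℝ) + 1 := by positivity
  have hgrid := ev_fin (P := fun j X δ => volume {t : ℝ | 0 ≤ t ∧ t ≤ X ∧ ∃ H : ℝ,
      Hx k ((-A + j * η) + 4 * η) δ ≤ H ∧ H ≤ δ ^ (-D) ∧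
      τ ≤ |(1 / H) * (∫ u in t..(t + H), Zk k δ u * chi k (-A + j * η) η δ u) - mm (-A + j * η) η|} ≤
        ENNReal.ofReal (ε / (J + 1) * X)) (J + 1)
    (fun j _ => lvl hM hLaw k D hk (-A + j * η) η τ (ε / (J + 1)) hη hτ hτ1 (by positivity))
  refine hgrid.mono ?_
  rintro X δ hX1 h0 h1 E
  have hX0 : 0 < X := by linarith
  have hsub : {t : ℝ | 0 ≤ t ∧ t ≤ X ∧ ∃ H : ℝ, 0 < H ∧ H ≤ δ ^ (-D) ∧ ∃ j : ℕ, j ≤ J ∧
      -A + j * η + 4 * η ≤ pos k δ H ∧ τ ≤ |Cw k (-A + j * η) η δ t H - mm (-A + j * η) η|} ⊆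
      ⋃ j ∈ Finset.range (J + 1), {t : ℝ | 0 ≤ t ∧ t ≤ X ∧ ∃ H : ℝ,
      Hx k ((-A + j * η) + 4 * η) δ ≤ H ∧ H ≤ δ ^ (-D) ∧
      τ ≤ |(1 / H) * (∫ u in t..(t + H), Zk k δ u * chi k (-A + j * η) η δ u) - mm (-A + j * η) η|} := by
    rintro t ⟨t0, t1, H, hH0, hHD, j, hj, hx, ht⟩
    refine Set.mem_biUnion (show j ∈ ((Finset.range (J + 1) : Finset ℕ) : Set ℕ) from by
      rw [Finset.mem_coe, Finset.mem_range]
      omega) ⟨t0, t1, H, ?_, hHD, ht⟩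
    have hHx : Hx k (pos k δ H) δ = H := Hx_pos_eq hk0 h0 h1 hH0
    rw [← hHx]
    exact Hx_mono hk0 h0 hx
  refine (measure_mono hsub).trans ((measure_biUnion_finset_le _ _).trans ?_)
  refine (Finset.sum_le_card_nsmul _ _ (ENNReal.ofReal (ε / (J + 1) * X)) fun j hj => E j (Finset.mem_range.1 hj)).trans ?_
  rw [Finset.card_range, ← ENNReal.ofReal_nsmul]
  refine ENNReal.ofReal_le_ofReal (le_of_eq ?_)
  rw [nsmul_eq_mul]
  push_cast
  field_simp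

/-- the law, one window length, all levels -/
theorem law_a (hM : S_MNB) (hLaw : S_LAW) (hS : S_SUPW) (k D : ℝ) (hk : 1 < k) (hD : 0 ≤ D) (ε : ℝ) (hε : 0 < ε) :
    Ev fun X δ => ∀ H : ℝ, 0 < H → H ≤ δ ^ (-D) →
    volume {t : ℝ | 0 ≤ t ∧ t ≤ X ∧ ∃ y : ℝ, ε ≤ |Jw k y δ t H - Phi (min y (pos k δ H))|} ≤
      ENNReal.ofReal (ε * X) := by
  have hk0 : 0 < k := by linarith
  set e0 : ℝ := min ε 1 with he0
  have he00 : 0 < e0 := lt_min hε one_pos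
  have he01 : e0 ≤ 1 := min_le_right _ _
  have he0ε : e0 ≤ ε := min_le_left _ _
  set e : ℝ := e0 / 32 with he
  set η : ℝ := e0 / 56 with hη
  set τ : ℝ := e0 / 8 with hτ
  have hep : 0 < e := by positivity
  have hηp : 0 < η := by positivity
  have hτp : 0 < τ := by positivity
  obtain ⟨A3, H3⟩ := eventually_atTop.1 ((tendsto_order.1 Phi_top).1 (1 - e) (by linarith))
  obtain ⟨A4, H4⟩ := eventually_atBot.1 ((tendsto_order.1 Phi_bot).2 e hep)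
  set A : ℝ := max A3 (4 * η - A4) with hA
  have hA3 : A3 ≤ A := le_max_left _ _
  have hA4 : 4 * η - A4 ≤ A := le_max_right _ _
  obtain ⟨J, hJ⟩ := exists_nat_ge (2 * A / η)
  rw [div_le_iff₀ hηp] at hJ
  refine ((grid hM hLaw k D hk A η τ (e0 / 2) J hηp hτp (by linarith) (by positivity)).and
    (crit_a hM hLaw hS k D hk hD e hep)).mono ?_
  rintro X δ hX1 h0 h1 ⟨E1, E2⟩ H hH0 hHD
  have hX0 : 0 < X := by linarith
  have E3 := E2 H hH0 hHD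
  have hsub : {t : ℝ | 0 ≤ t ∧ t ≤ X ∧ ∃ y : ℝ, ε ≤ |Jw k y δ t H - Phi (min y (pos k δ H))|} ⊆
      {t : ℝ | 0 ≤ t ∧ t ≤ X ∧ ∃ H : ℝ, 0 < H ∧ H ≤ δ ^ (-D) ∧ ∃ j : ℕ, j ≤ J ∧
      -A + j * η + 4 * η ≤ pos k δ H ∧ τ ≤ |Cw k (-A + j * η) η δ t H - mm (-A + j * η) η|} ∪
      {t : ℝ | 0 ≤ t ∧ t ≤ X ∧ e ≤ |(1 / H) * (∫ u in t..(t + H), Zk k δ u) - Phi (pos k δ H)|} := by
    rintro t ⟨t0, t1, y, hy⟩
    by_contra hcon
    simp only [Set.mem_union, not_or] at hcon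
    obtain ⟨c1, c2⟩ := hcon
    have d2 : |(1 / H) * (∫ u in t..(t + H), Zk k δ u) - Phi (pos k δ H)| < e := by
      by_contra h
      exact c2 ⟨t0, t1, not_lt.1 h⟩
    have d1 : ∀ j : ℕ, j ≤ J → -A + j * η + 4 * η ≤ pos k δ H →
        |Cw k (-A + j * η) η δ t H - mm (-A + j * η) η| < τ := by
      intro j hj hx
      by_contra h
      exact c1 ⟨t0, t1, H, hH0, hHD, j, hj, hx, not_lt.1 h⟩
    have key := lev_a (I := fun y => Jw k y δ t H) (c := fun j => Cw k (-A + j * η) η δ t H)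
      (M := (1 / H) * (∫ u in t..(t + H), Zk k δ u)) (x := pos k δ H) (A := A) (η := η) (e := e) (τ := τ) (J := J)
      hηp hep (fun y => Jw_nn h0.le hH0) (fun a b hab => Jw_mono hk0.le h0.le h1 hH0 hab)
      (fun y => Jw_le hk0.le h0.le h1 hH0) (fun j => Jw_le_Cw hk0.le hηp.le h0.le h1 hH0)
      (fun j => Cw_le_Jw hk0.le hηp h0 h1 hH0) d1 hτp (by linarith) d2 (H4 _ (by linarith)).le
      (H3 _ hA3).le y
    have h7 : 4 * e + 7 * η + τ = e0 * (3 / 8) := by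
      rw [he, hη, hτ]
      ring
    have h8 : |Jw k y δ t H - Phi (min y (pos k δ H))| ≤ 4 * e + 7 * η + τ := key
    linarith
  refine (measure_mono hsub).trans ((measure_union_le _ _).trans ((add_le_add E1 E3).trans ?_))
  rw [← ENNReal.ofReal_add (by positivity) (by positivity)]
  refine ENNReal.ofReal_le_ofReal ?_
  rw [← add_mul]
  refine mul_le_mul_of_nonneg_right ?_ hX0.le
  linarith

/-- the law below the position, all windows at once -/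
theorem law_b (hM : S_MNB) (hLaw : S_LAW) (hS : S_SUPW) (k D : ℝ) (hk : 1 < k) (hD : 0 ≤ D) (ε : ℝ) (hε : 0 < ε) :
    Ev fun X δ => volume {t : ℝ | 0 ≤ t ∧ t ≤ X ∧ ∃ H : ℝ, 0 < H ∧ H ≤ δ ^ (-D) ∧ ∃ y : ℝ, y ≤ pos k δ H - ε ∧
      ε ≤ |Jw k y δ t H - Phi y|} ≤ ENNReal.ofReal (ε * X) := by
  have hk0 : 0 < k := by linarith
  set e0 : ℝ := min ε 1 with he0
  have he00 : 0 < e0 := lt_min hε one_pos
  have he01 : e0 ≤ 1 := min_le_right _ _
  have he0ε : e0 ≤ ε := min_le_left _ _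
  set e : ℝ := e0 / 32 with he
  set η : ℝ := e0 / 56 with hη
  set τ : ℝ := e0 / 8 with hτ
  have hep : 0 < e := by positivity
  have hηp : 0 < η := by positivity
  have hτp : 0 < τ := by positivity
  obtain ⟨A3, H3⟩ := eventually_atTop.1 ((tendsto_order.1 Phi_top).1 (1 - e) (by linarith))
  obtain ⟨A4, H4⟩ := eventually_atBot.1 ((tendsto_order.1 Phi_bot).2 e hep)
  obtain ⟨A5, H5⟩ := crit_b hM hLaw hS k D hk hD e hep
  set A : ℝ := max (max A3 (4 * η - A4)) (A5 + 4 * η) with hA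
  have hA3 : A3 ≤ A := (le_max_left _ _).trans (le_max_left _ _)
  have hA4 : 4 * η - A4 ≤ A := (le_max_right _ _).trans (le_max_left _ _)
  have hA5 : A5 + 4 * η ≤ A := le_max_right _ _
  obtain ⟨J, hJ⟩ := exists_nat_ge (2 * A / η)
  rw [div_le_iff₀ hηp] at hJ
  refine ((grid hM hLaw k D hk A η τ (e0 / 2) J hηp hτp (by linarith) (by positivity)).and H5).mono ?_
  rintro X δ hX1 h0 h1 ⟨E1, E2⟩
  have hX0 : 0 < X := by linarith
  have hsub : {t : ℝ | 0 ≤ t ∧ t ≤ X ∧ ∃ H : ℝ, 0 < H ∧ H ≤ δ ^ (-D) ∧ ∃ y : ℝ, y ≤ pos k δ H - ε ∧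
      ε ≤ |Jw k y δ t H - Phi y|} ⊆
      {t : ℝ | 0 ≤ t ∧ t ≤ X ∧ ∃ H : ℝ, 0 < H ∧ H ≤ δ ^ (-D) ∧ ∃ j : ℕ, j ≤ J ∧
      -A + j * η + 4 * η ≤ pos k δ H ∧ τ ≤ |Cw k (-A + j * η) η δ t H - mm (-A + j * η) η|} ∪
      {t : ℝ | 0 ≤ t ∧ t ≤ X ∧ ∃ H : ℝ, 0 < H ∧ H ≤ δ ^ (-D) ∧
      ((A5 ≤ pos k δ H ∧ e ≤ |(1 / H) * (∫ u in t..(t + H), Zk k δ u) - 1|) ∨
        (pos k δ H ≤ -A5 ∧ e ≤ (1 / H) * (∫ u in t..(t + H), Zk k δ u)))} := by
    rintro t ⟨t0, t1, H, hH0, hHD, y, hyx, hy⟩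
    by_contra hcon
    simp only [Set.mem_union, not_or] at hcon
    obtain ⟨c1, c2⟩ := hcon
    have d1 : ∀ j : ℕ, j ≤ J → -A + j * η + 4 * η ≤ pos k δ H →
        |Cw k (-A + j * η) η δ t H - mm (-A + j * η) η| < τ := by
      intro j hj hx
      by_contra h
      exact c1 ⟨t0, t1, H, hH0, hHD, j, hj, hx, not_lt.1 h⟩
    have d2 : A ≤ pos k δ H → (1 / H) * (∫ u in t..(t + H), Zk k δ u) < 1 + e := by
      intro hx
      by_contra h
      refine c2 ⟨t0, t1, H, hH0, hHD, Or.inl ⟨by linarith, ?_⟩⟩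
      have := le_abs_self ((1 / H) * (∫ u in t..(t + H), Zk k δ u) - 1)
      linarith [not_lt.1 h]
    have d3 : pos k δ H < -A + 4 * η → (1 / H) * (∫ u in t..(t + H), Zk k δ u) < e := by
      intro hx
      by_contra h
      exact c2 ⟨t0, t1, H, hH0, hHD, Or.inr ⟨by linarith, not_lt.1 h⟩⟩
    have key := lev (I := fun y => Jw k y δ t H) (c := fun j => Cw k (-A + j * η) η δ t H)
      (M := (1 / H) * (∫ u in t..(t + H), Zk k δ u)) (x := pos k δ H) (A := A) (η := η) (e := e) (τ := τ) (J := J)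
      hηp hep (fun y => Jw_nn h0.le hH0) (fun a b hab => Jw_mono hk0.le h0.le h1 hH0 hab)
      (fun y => Jw_le hk0.le h0.le h1 hH0) (fun j => Jw_le_Cw hk0.le hηp.le h0.le h1 hH0)
      (fun j => Cw_le_Jw hk0.le hηp h0 h1 hH0) d1 hτp (by linarith) d2 d3 (H4 _ (by linarith)).le
      (H3 _ hA3).le y (by linarith)
    have h7 : 2 * e + 2 * η + τ ≤ e0 * (3 / 8) := by
      rw [he, hη, hτ]
      linarith
    have h8 : |Jw k y δ t H - Phi y| ≤ 2 * e + 2 * η + τ := key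
    linarith
  refine (measure_mono hsub).trans ((measure_union_le _ _).trans ((add_le_add E1 E2).trans ?_))
  rw [← ENNReal.ofReal_add (by positivity) (by positivity)]
  refine ENNReal.ofReal_le_ofReal ?_
  rw [← add_mul]
  refine mul_le_mul_of_nonneg_right ?_ hX0.le
  linarith

/-- the law beyond the critical length, all windows at once -/
theorem law_c (hM : S_MNB) (hLaw : S_LAW) (hS : S_SUPW) (k D : ℝ) (hk : 1 < k) (hD : 0 ≤ D) (ε : ℝ) (hε : 0 < ε) :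
    ∃ A : ℝ, Ev fun X δ => volume {t : ℝ | 0 ≤ t ∧ t ≤ X ∧ ∃ H : ℝ, 0 < H ∧ H ≤ δ ^ (-D) ∧ A ≤ pos k δ H ∧ ∃ y : ℝ,
      ε ≤ |Jw k y δ t H - Phi y|} ≤ ENNReal.ofReal (ε * X) := by
  have hk0 : 0 < k := by linarith
  set e : ℝ := min (ε / 4) 1 with he
  have he0 : 0 < e := lt_min (by positivity) one_pos
  have he1 : e ≤ 1 := min_le_right _ _
  have heε : e ≤ ε / 4 := min_le_left _ _
  obtain ⟨A3, H3⟩ := eventually_atTop.1 ((tendsto_order.1 Phi_top).1 (1 - e) (by linarith))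
  obtain ⟨A5, H5⟩ := crit_b hM hLaw hS k D hk hD e he0
  refine ⟨max (A3 + 1) A5, ((law_b hM hLaw hS k D hk hD e he0).and H5).mono ?_⟩
  rintro X δ hX1 h0 h1 ⟨E1, E2⟩
  have hX0 : 0 < X := by linarith
  have hsub : {t : ℝ | 0 ≤ t ∧ t ≤ X ∧ ∃ H : ℝ, 0 < H ∧ H ≤ δ ^ (-D) ∧ max (A3 + 1) A5 ≤ pos k δ H ∧ ∃ y : ℝ,
      ε ≤ |Jw k y δ t H - Phi y|} ⊆
      {t : ℝ | 0 ≤ t ∧ t ≤ X ∧ ∃ H : ℝ, 0 < H ∧ H ≤ δ ^ (-D) ∧ ∃ y : ℝ, y ≤ pos k δ H - e ∧
      e ≤ |Jw k y δ t H - Phi y|} ∪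
      {t : ℝ | 0 ≤ t ∧ t ≤ X ∧ ∃ H : ℝ, 0 < H ∧ H ≤ δ ^ (-D) ∧
      ((A5 ≤ pos k δ H ∧ e ≤ |(1 / H) * (∫ u in t..(t + H), Zk k δ u) - 1|) ∨
        (pos k δ H ≤ -A5 ∧ e ≤ (1 / H) * (∫ u in t..(t + H), Zk k δ u)))} := by
    rintro t ⟨t0, t1, H, hH0, hHD, hA, y, hy⟩
    have hx1 : A3 + 1 ≤ pos k δ H := (le_max_left _ _).trans hA
    have hx2 : A5 ≤ pos k δ H := (le_max_right _ _).trans hA
    by_contra hcon
    simp only [Set.mem_union, not_or] at hcon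
    obtain ⟨c1, c2⟩ := hcon
    have d1 : ∀ z : ℝ, z ≤ pos k δ H - e → |Jw k z δ t H - Phi z| < e := by
      intro z hz
      by_contra h
      exact c1 ⟨t0, t1, H, hH0, hHD, z, hz, not_lt.1 h⟩
    have d2 : |(1 / H) * (∫ u in t..(t + H), Zk k δ u) - 1| < e := by
      by_contra h
      exact c2 ⟨t0, t1, H, hH0, hHD, Or.inl ⟨hx2, not_lt.1 h⟩⟩
    rcases le_or_gt y (pos k δ H - e) with hc | hc
    · have := d1 y hc
      linarith
    · have g1 := (abs_lt.1 (d1 (pos k δ H - e) le_rfl)).1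
      have g2 := (abs_lt.1 d2).2
      have g3 := Jw_mono (k := k) (δ := δ) (t := t) hk0.le h0.le h1 hH0 hc.le
      have g4 := Jw_le (k := k) (y := y) (δ := δ) (t := t) hk0.le h0.le h1 hH0
      have g5 := H3 (pos k δ H - e) (by linarith)
      have g6 := Phi_le_one y
      have g7 := Phi_mono hc.le
      have g8 : |Jw k y δ t H - Phi y| < ε := by
        rw [abs_lt]
        constructor <;> linarith
      linarith
  refine (measure_mono hsub).trans ((measure_union_le _ _).trans ((add_le_add E1 E2).trans ?_))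
  rw [← ENNReal.ofReal_add (by positivity) (by positivity)]
  refine ENNReal.ofReal_le_ofReal ?_
  nlinarith

end Run7.h701.LW
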