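import Pool.Agent.Run7.h701.LW.B

set_option autoImplicit false

/-! The law in windows, small exponents: the two-point function (copied from helper291's B2, B4 for the weight without barrier) -/

namespace Run7.h701.LW

open Finset Filter MeasureTheory Topology Complex
open Pool.Agent.N748.MG hiding Phi
open Pool.Agent.N748.MJ Run7.h291.WN Run7.h291.WC

/-- the weight with the cut-off -/
noncomputable def gF (k y η W δ u : ℝ) : ℝ := FP k W δ u * chi k y η δ u

lemma gF_nn {k y η W δ : ℝ} (h0 : 0 ≤ δ) (u : ℝ) : 0 ≤ gF k y η W δ u := mul_nonneg (FP_nn h0 u) (chi_nn u)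
lemma gF_le {k y η W δ : ℝ} (h0 : 0 ≤ δ) (u : ℝ) : gF k y η W δ u ≤ FP k W δ u :=
  mul_le_of_le_one_right (FP_nn h0 u) (chi_le u)
lemma gF_le_chi {k y η W δ : ℝ} (_h0 : 0 ≤ δ) (u : ℝ) : gF k y η W δ u ≤ FP k W δ u * chi k y η δ u := le_rfl
lemma gF_cont {k y η W δ : ℝ} (hk : 0 ≤ k) (hη : 0 ≤ η) (h1 : δ ≤ 1 / 16) : Continuous fun u => gF k y η W δ u :=
  (FP_cont hk h1).mul (chi_cont hη h1)

/-- the correlation function -/
noncomputable def cF (k y η W δ X h : ℝ) : ℝ := ∫ t in (0:ℝ)..X, gF k y η W δ t * gF k y η W δ (t + h)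

lemma cF_cont {k y η W δ X : ℝ} (hk : 0 ≤ k) (hη : 0 ≤ η) (h1 : δ ≤ 1 / 16) :
    Continuous fun h => cF k y η W δ X h := by
  unfold cF
  refine intervalIntegral.continuous_parametric_intervalIntegral_of_continuous (f := fun h t =>
    gF k y η W δ t * gF k y η W δ (t + h)) ?_ continuous_const
  exact ((gF_cont hk hη h1).comp continuous_snd).mul ((gF_cont hk hη h1).comp (by fun_prop))

/-- a bound of the two-point function without the barrier -/
lemma tpF_up (k y η W : ℝ) (hk : 0 < k) (hη : 0 < η) (hW : 0 ≤ W) : ∃ C : ℝ, 0 < C ∧ Ev fun X δ =>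
    ∀ (h : ℝ), 0 ≤ h → h ≤ 1 →
    ∫ t in (0:ℝ)..X, gF k y η W δ t * gF k y η W δ (t + h) ≤ C * (X * (max h δ) ^ (-(2 * k ^ 2))) := by
  obtain ⟨c1, C, hc1, hC, HJ⟩ := jmr 2 k (2 * W + 1) hk (by linarith)
  obtain ⟨C1, H1⟩ := Lr_two 1 k zero_le_one
  set Ct : ℝ := ((2:ℝ) ^ (k ^ 2) / akR k) ^ 2 * ((C + 1) * Real.exp C1) + 1 with hCt
  have ha := akp k
  have hCtp : 0 < Ct := by positivity
  refine ⟨Ct, hCtp, ?_⟩
  have hX : ∀ᶠ X : ℝ in atTop, (1:ℝ) ≤ X ^ ((1:ℝ) / 2) :=
    (tendsto_rpow_atTop (by norm_num)).eventually_ge_atTop _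
  refine ((HJ 1 one_pos).and (Ev.of_ev hX)).mono ?_
  rintro X δ hX1 h0 h1 ⟨HJ, hX2⟩ h hh hh2
  have hX0 : 0 < X := by linarith
  obtain ⟨S, n1, n2, n3, n4, n5⟩ := HJ ![0, h] (by
    intro j
    refine le_trans ?_ hX2
    fin_cases j
    · simp
    · simpa [abs_of_nonneg hh] using hh2)
  obtain ⟨a, a1, a2, a3, a4, a5⟩ := n5 (fun _ => k) (by
    intro j
    rw [abs_of_pos hk])
  have hLr := H1 δ h0 h1 h (by rw [abs_of_nonneg hh]; exact hh2)
  rw [abs_of_nonneg hh] at hLr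
  set E : ℝ := SM.Lr (fun _ : Fin 2 => k) ![0, h] δ with hE
  have hI : ∫ t in S, SM.G (fun _ : Fin 2 => k) ![0, h] δ t ≤ X * ((C + 1) * Real.exp E) := by
    have := (abs_le.1 a5).2
    have he := Real.exp_pos E
    have h2 : X * (a * Real.exp E) ≤ X * (C * Real.exp E) :=
      mul_le_mul_of_nonneg_left (mul_le_mul_of_nonneg_right a2 he.le) hX0.le
    linarith
  set cc : ℝ := ((2 * δ) ^ (k ^ 2) / akR k) ^ 2 with hcc
  have hmain := offN (g := fun t => gF k y η W δ t * gF k y η W δ (t + h))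
    (G := fun t => SM.G (fun _ : Fin 2 => k) ![0, h] δ t) (N := S) (X := X) (B := δ ^ (-W) * δ ^ (-W))
    (c := cc) (v := δ ^ (2 * W + 1) * X) hX0.le n1 n2 n3
    (mul_nonneg (Real.rpow_nonneg h0.le _) hX0.le)
    ((gF_cont hk.le hη.le h1).mul ((gF_cont hk.le hη.le h1).comp (by fun_prop)))
    (fun t => mul_nonneg (gF_nn h0.le _) (gF_nn h0.le _))
    (fun t => mul_le_mul ((gF_le h0.le _).trans (FP_le' _)) ((gF_le h0.le _).trans (FP_le' _)) (gF_nn h0.le _)
      (Real.rpow_nonneg h0.le _)) a4 (fun t ht => by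
        rw [G_two]
        refine (mul_le_mul ((gF_le h0.le _).trans (FP_le _)) ((gF_le h0.le _).trans (FP_le _)) (gF_nn h0.le _)
          (Zk_nn h0.le _)).trans (le_of_eq ?_)
        unfold Zk
        ring)
  refine hmain.trans ?_
  have hM : 0 < max h δ := lt_of_lt_of_le h0 (le_max_right _ _)
  have e1 : δ ^ (-W) * δ ^ (-W) * (δ ^ (2 * W + 1) * X) = δ * X := by
    rw [← mul_assoc, ← Real.rpow_add h0, ← Real.rpow_add h0]
    have : -W + -W + (2 * W + 1) = 1 := by ring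
    rw [this, Real.rpow_one]
  have e2 : Real.exp E ≤ Real.exp C1 * (δ ^ (-(2 * k ^ 2)) * (max h δ) ^ (-(2 * k ^ 2))) := by
    rw [← expL h0, ← expL hM, ← Real.exp_add, ← Real.exp_add]
    exact Real.exp_le_exp.2 (by linarith)
  have e3 : cc = ((2:ℝ) ^ (k ^ 2) / akR k) ^ 2 * δ ^ (2 * k ^ 2) := by
    rw [hcc, Real.mul_rpow (by norm_num) h0.le, show (2 * k ^ 2 : ℝ) = k ^ 2 + k ^ 2 by ring, Real.rpow_add h0]
    ring
  have hccp : 0 < cc := by
    rw [e3]
    have := Real.rpow_pos_of_pos h0 (2 * k ^ 2)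
    positivity
  set P : ℝ := (max h δ) ^ (-(2 * k ^ 2)) with hP
  have hP1 : 1 ≤ P := by
    rw [hP]
    refine Real.one_le_rpow_of_pos_of_le_one_of_nonpos hM (max_le hh2 (by linarith)) ?_
    have : 0 ≤ 2 * k ^ 2 := by positivity
    linarith
  have e4 : δ ^ (2 * k ^ 2) * δ ^ (-(2 * k ^ 2)) = 1 := by
    rw [← Real.rpow_add h0, add_neg_cancel, Real.rpow_zero]
  calc cc * (∫ t in S, SM.G (fun _ : Fin 2 => k) ![0, h] δ t) + δ ^ (-W) * δ ^ (-W) * (δ ^ (2 * W + 1) * X)
      ≤ cc * (X * ((C + 1) * (Real.exp C1 * (δ ^ (-(2 * k ^ 2)) * P)))) + δ * X := by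
        rw [e1]
        refine add_le_add (mul_le_mul_of_nonneg_left (hI.trans ?_) hccp.le) le_rfl
        exact mul_le_mul_of_nonneg_left (mul_le_mul_of_nonneg_left e2 (by linarith)) hX0.le
    _ = ((2:ℝ) ^ (k ^ 2) / akR k) ^ 2 * ((C + 1) * Real.exp C1) * (X * P) *
          (δ ^ (2 * k ^ 2) * δ ^ (-(2 * k ^ 2))) + δ * X := by
        rw [e3]
        ring
    _ ≤ ((2:ℝ) ^ (k ^ 2) / akR k) ^ 2 * ((C + 1) * Real.exp C1) * (X * P) + X * P := by
        rw [e4, mul_one]
        refine add_le_add le_rfl ?_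
        nlinarith
    _ = Ct * (X * P) := by
        rw [hCt]
        ring

/-- the two-point function at distances at least one -/
lemma tpF_far (hLaw : S_LAW) (k y η W D : ℝ) (hk : 0 < k) (hη : 0 < η) (hW : 0 ≤ W) (hD : 0 < D)
    (ε : ℝ) (hε : 0 < ε) : Ev fun X δ => ∀ h : ℝ, 1 ≤ h → h ≤ δ ^ (-D) →
    cF k y η W δ X h ≤ X * ((mm y η ^ 2 + ε) * B2 k δ h + ε) := by
  have ha := akp k
  obtain ⟨c1, Cp, hc1, hCp, hpos⟩ := posF 2 k hk.le
  set m : ℝ := mm y η with hm
  have hm0 : 0 ≤ m := mm_nn y η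
  have hm1 : m ≤ 1 := mm_le y η
  set e1 : ℝ := min (ε / 8) 1 with he1
  have he10 : 0 < e1 := lt_min (by positivity) one_pos
  have he11 : e1 ≤ 1 := min_le_right _ _
  have he12 : e1 ≤ ε / 8 := min_le_left _ _
  set r : ℝ := min (akR k ^ 2 * (ε / 8) / Cp) 1 with hr
  have hr0 : 0 < r := lt_min (by positivity) one_pos
  have hr1 : Cp / akR k ^ 2 * r ≤ ε / 8 := by
    have h2 : r ≤ akR k ^ 2 * (ε / 8) / Cp := min_le_left _ _
    calc Cp / akR k ^ 2 * r ≤ Cp / akR k ^ 2 * (akR k ^ 2 * (ε / 8) / Cp) :=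
          mul_le_mul_of_nonneg_left h2 (by positivity)
      _ = ε / 8 := by field_simp
  set K : ℝ := -(Real.log r) / (2 * k ^ 2) with hK
  have hKr : Real.exp (-(2 * k ^ 2 * K)) = r := by
    have : -(2 * k ^ 2 * K) = Real.log r := by
      rw [hK]
      field_simp
    rw [this, Real.exp_log hr0]
  obtain ⟨d0, hd0, hpole⟩ := pole_pow (2 * k ^ 2) e1 he10
  refine (((((hLaw 2 k D K (2 * W + 1) hk hD (by linarith) (phy y η) phy_cont phy_nn phy_le (e1 * c1)
    (by positivity)).and (Run7.h291.WN.tp_far 0 k 1 W hk hW e1 he10)).and (Ev.of_le hd0)).and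
    (Ev.win (D := D) (c := 1) (e := (1:ℝ) / 2) one_pos (by norm_num))).and (Ev.of_le hε)).mono ?_
  rintro X δ hX1 h0 h1 ⟨⟨⟨⟨HL, HB⟩, hδ0⟩, w1⟩, hδε⟩ h hh hh2
  rw [one_mul] at w1
  have hX0 : 0 < X := by linarith
  have hhX : h ≤ X ^ ((1:ℝ) / 2) := hh2.trans w1
  obtain ⟨hCu, hcl⟩ := hpos ![0, h]
  obtain ⟨a, ha1, ha2⟩ := hcl (fun _ => k) (fun j => by rw [abs_of_pos hk])
  have ha0 : 0 < a := lt_of_lt_of_le hc1 ha1
  have haC : a ≤ Cp := by
    have h2 := hCu (fun _ => (k:ℂ)) (fun _ => (k:ℂ)) (fun j => by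
      rw [Complex.norm_real, Real.norm_of_nonneg hk.le]) (fun j => by
      rw [Complex.norm_real, Real.norm_of_nonneg hk.le])
    rw [ha2, Complex.norm_real, Real.norm_of_nonneg ha0.le] at h2
    exact h2
  set z1 : ℝ := ‖riemannZeta (1 + 2 * δ + h * I)‖ ^ (2 * k ^ 2) with hz1
  have hz10 : 0 ≤ z1 := Real.rpow_nonneg (norm_nonneg _) _
  have hB2 : B2 k δ h = a / akR k ^ 2 * z1 := by
    unfold B2
    rw [ha2, aC_re, Complex.ofReal_re]
  have hB0 : 0 ≤ B2 k δ h := by
    rw [hB2]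
    positivity
  have hcZ : Continuous fun t => Zk k δ t * chi k y η δ t := (Zk_cont hk.le h1).mul (chi_cont hη.le h1)
  have hgF : ∀ t, gF k y η W δ t ≤ Zk k δ t * chi k y η δ t := fun t =>
    (gF_le_chi h0.le t).trans (mul_le_mul_of_nonneg_right (FP_le t) (chi_nn t))
  have hZn : ∀ t, 0 ≤ Zk k δ t * chi k y η δ t := fun t => mul_nonneg (Zk_nn h0.le t) (chi_nn t)
  by_cases hcase : -K ≤ (LZ (1 + 2 * δ) h).re
  · -- the main case
    obtain ⟨S, n1, n2, n3, n4, a', a1, a2, a3, a4⟩ := HL ![0, h] (fun j => by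
      fin_cases j
      · simpa using Real.rpow_nonneg h0.le _
      · simpa [abs_of_nonneg (show 0 ≤ h by linarith)] using hh2) (fun j l hjl => by
      fin_cases j <;> fin_cases l
      · exact absurd rfl hjl
      · refine ⟨?_, ?_⟩
        · simpa [abs_of_nonneg (show 0 ≤ h by linarith)] using hh
        · simp only [Fin.zero_eta, Fin.isValue, Matrix.cons_val_zero, Fin.mk_one, Matrix.cons_val_one, zero_sub]
          rw [LZ_even h0 h1]
          exact hcase
      · refine ⟨?_, ?_⟩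
        · simpa [abs_of_nonneg (show 0 ≤ h by linarith)] using hh
        · simpa using hcase
      · exact absurd rfl hjl)
    have haa : a' = a := by
      rw [ha2] at a1
      exact_mod_cast a1.symm
    rw [haa] at a3 a4
    set E : ℝ := Real.exp (SM.Lr (fun _ : Fin 2 => k) ![0, h] δ) with hE
    have hE0 : 0 < E := Real.exp_pos _
    set J : ℝ := ∫ t in S, SM.G (fun _ : Fin 2 => k) ![0, h] δ t * ∏ j : Fin 2, phy y η (YY k δ (t + ![0, h] j)) with hJ
    have hJu : J ≤ X * E * (a * (m ^ 2 + e1)) := by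
      have h2 := (abs_le.1 a4).2
      have h3 : e1 * c1 * (X * E) ≤ e1 * a * (X * E) :=
        mul_le_mul_of_nonneg_right (mul_le_mul_of_nonneg_left ha1 he10.le) (by positivity)
      have h4 : X * E * (a * (m ^ 2 + e1)) = X * (a * E) * m ^ 2 + e1 * a * (X * E) := by ring
      rw [h4]
      have h5 : (∫ x, phy y η x ∂(ProbabilityTheory.gaussianReal 0 1)) = m := rfl
      rw [h5] at h2
      linarith
    set cc : ℝ := ((2 * δ) ^ (k ^ 2) / akR k) ^ 2 with hcc
    have hmain := offN (g := fun t => gF k y η W δ t * gF k y η W δ (t + h))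
      (G := fun t => (Zk k δ t * chi k y η δ t) * (Zk k δ (t + h) * chi k y η δ (t + h))) (N := S) (X := X)
      (B := δ ^ (-W) * δ ^ (-W)) (c := 1) (v := δ ^ (2 * W + 1) * X) hX0.le n1 n2 n3
      (mul_nonneg (Real.rpow_nonneg h0.le _) hX0.le)
      ((gF_cont hk.le hη.le h1).mul ((gF_cont hk.le hη.le h1).comp (by fun_prop)))
      (fun t => mul_nonneg (gF_nn h0.le _) (gF_nn h0.le _))
      (fun t => mul_le_mul ((gF_le h0.le _).trans (FP_le' _)) ((gF_le h0.le _).trans (FP_le' _)) (gF_nn h0.le _)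
        (Real.rpow_nonneg h0.le _)) ((hcZ.mul (hcZ.comp (by fun_prop))).integrableOn_Icc.mono_set n2) (fun t ht => by
          rw [one_mul]
          exact mul_le_mul (hgF t) (hgF (t + h)) (gF_nn h0.le _) (hZn t))
    have hJe : ∫ t in S, (Zk k δ t * chi k y η δ t) * (Zk k δ (t + h) * chi k y η δ (t + h)) = cc * J := by
      rw [hJ, ← integral_const_mul]
      refine setIntegral_congr_fun n1 fun t ht => ?_
      have hm0 : 0 < mz δ t := by
        have := n4 t ht 0
        simpa using this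
      have hm1 : 0 < mz δ (t + h) := by
        have := n4 t ht 1
        simpa using this
      simp only [G_two, Fin.prod_univ_two, Matrix.cons_val_zero, Matrix.cons_val_one, add_zero]
      rw [chi_eq hη h0 h1 hm0, chi_eq hη h0 h1 hm1, hcc]
      unfold Zk
      ring
    have f1 : δ ^ (-W) * δ ^ (-W) * (δ ^ (2 * W + 1) * X) = δ * X := by
      rw [← mul_assoc, ← Real.rpow_add h0, ← Real.rpow_add h0]
      have : -W + -W + (2 * W + 1) = 1 := by ring
      rw [this, Real.rpow_one]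
    rw [one_mul, hJe, f1] at hmain
    have hcgd : cF k y η W δ X h =
      ∫ t in (0:ℝ)..X, gF k y η W δ t * gF k y η W δ (t + h) := rfl
    rw [hcgd]
    refine hmain.trans ?_
    have hp := (abs_le.1 (hpole δ h0 hδ0)).2
    set z0 : ℝ := ‖riemannZeta (1 + 2 * δ)‖ with hz0
    have hz00 : 0 ≤ z0 := norm_nonneg _
    have hEe : E = z0 ^ (2 * k ^ 2) * z1 := exp_two k h h0 h1
    have f2 : cc * E ≤ (1 + e1) / akR k ^ 2 * z1 := by
      have g1 : (2 * δ) ^ (k ^ 2) * (2 * δ) ^ (k ^ 2) = (2 * δ) ^ (2 * k ^ 2) := by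
        rw [← Real.rpow_add (by linarith)]
        congr 1
        ring
      have g2 : (2 * δ) ^ (2 * k ^ 2) * z0 ^ (2 * k ^ 2) ≤ 1 + e1 := by
        rw [← Real.mul_rpow (by linarith) hz00]
        linarith
      calc cc * E = ((2 * δ) ^ (2 * k ^ 2) * z0 ^ (2 * k ^ 2)) / akR k ^ 2 * z1 := by
            rw [hEe, hcc, div_pow, sq, g1]
            ring
        _ ≤ (1 + e1) / akR k ^ 2 * z1 := by gcongr
    have hcc0 : 0 ≤ cc := sq_nonneg _
    have hme : (m ^ 2 + e1) * (1 + e1) ≤ m ^ 2 + ε := by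
      have q0 : m ^ 2 ≤ 1 := pow_le_one₀ hm0 hm1
      have q1 : m ^ 2 * e1 ≤ 1 * e1 := mul_le_mul_of_nonneg_right q0 he10.le
      have q2 : e1 * e1 ≤ 1 * e1 := mul_le_mul_of_nonneg_right he11 he10.le
      nlinarith
    calc cc * J + δ * X ≤ cc * (X * E * (a * (m ^ 2 + e1))) + ε * X :=
          add_le_add (mul_le_mul_of_nonneg_left hJu hcc0) (mul_le_mul_of_nonneg_right hδε hX0.le)
      _ = X * a * (m ^ 2 + e1) * (cc * E) + ε * X := by ring
      _ ≤ X * a * (m ^ 2 + e1) * ((1 + e1) / akR k ^ 2 * z1) + ε * X :=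
          add_le_add (mul_le_mul_of_nonneg_left f2 (by positivity)) le_rfl
      _ = X * (((m ^ 2 + e1) * (1 + e1)) * B2 k δ h + ε) := by
          rw [hB2]
          ring
      _ ≤ X * ((m ^ 2 + ε) * B2 k δ h + ε) := by
          refine mul_le_mul_of_nonneg_left (add_le_add (mul_le_mul_of_nonneg_right hme hB0) le_rfl) hX0.le
  · -- small values of zeta on the line one
    rw [not_le] at hcase
    have hz1s : z1 ≤ r := by
      have g1 := LZre h0 h1 h
      have e0 : (((1 + 2 * δ : ℝ) : ℂ) + h * I) = 1 + 2 * (δ : ℂ) + h * I := by push_cast; ring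
      rw [e0] at g1
      rw [hz1, ← g1, ← Real.exp_mul, ← hKr]
      refine Real.exp_le_exp.2 ?_
      have : 0 < 2 * k ^ 2 := by positivity
      nlinarith
    have hBs : B2 k δ h ≤ ε / 8 := by
      rw [hB2]
      refine le_trans ?_ hr1
      exact mul_le_mul (by gcongr) hz1s hz10 (by positivity)
    have hcb := HB h (by linarith) hhX
    have hle : cF k y η W δ X h ≤ cb 0 k 1 W δ X h := by
      unfold cF cb
      have hff : ∀ t, ff 0 k 1 W δ t = FP k W δ t := fun t => by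
        unfold ff
        simp
      refine intervalIntegral.integral_mono_on hX0.le
        (((gF_cont hk.le hη.le h1).mul ((gF_cont hk.le hη.le h1).comp (by fun_prop))).intervalIntegrable _ _)
        (((ff_cont hk.le h1).mul ((ff_cont hk.le h1).comp (by fun_prop))).intervalIntegrable _ _) fun t _ => ?_
      rw [hff, hff]
      exact mul_le_mul (gF_le h0.le _) (gF_le h0.le _) (gF_nn h0.le _) (FP_nn h0.le _)
    refine (hle.trans hcb).trans (mul_le_mul_of_nonneg_left ?_ hX0.le)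
    have h3 : 0 ≤ (m ^ 2 + ε) * B2 k δ h := by positivity
    have h4 : e1 * B2 k δ h ≤ 1 * B2 k δ h := mul_le_mul_of_nonneg_right he11 hB0
    linarith

/-- the primitive of the correlation function -/
lemma primF_le {k y η W δ X b m2 C2 D e : ℝ} (hk : 0 < k) (hη : 0 < η) (h0 : 0 < δ) (h1 : δ ≤ 1 / 16)
    (hX : 0 < X) (he : 0 < e) (hb : 0 ≤ b) (hm2 : 0 ≤ m2) (hC2 : 0 < C2)
    (E1 : ∀ x : ℝ, 0 ≤ x → x ≤ 1 → ∫ h in (0:ℝ)..x, cF k y η W δ X h ≤ X * b)
    (E2 : ∀ h : ℝ, 1 ≤ h → h ≤ D → cF k y η W δ X h ≤ X * ((m2 + e) * B2 k δ h + e))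
    (E3 : ∀ x : ℝ, 1 ≤ x → ∫ h in (1:ℝ)..x, B2 k δ h ≤ (1 + e) * x + C2) {z : ℝ} (hz : 0 ≤ z)
    (hzX : z ≤ D) :
    ∫ h in (0:ℝ)..z, cF k y η W δ X h ≤ X * (((m2 + e) * (1 + e) + e) * z + (b + (m2 + e) * C2)) := by
  have hi : ∀ a b : ℝ, IntervalIntegrable (fun h => cF k y η W δ X h) volume a b := fun a b =>
    (cF_cont hk.le hη.le h1).intervalIntegrable a b
  have hme : 0 < m2 + e := by linarith
  rcases le_total z 1 with hy1 | hy1
  · refine (E1 z hz hy1).trans ?_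
    refine mul_le_mul_of_nonneg_left ?_ hX.le
    have h2 : 0 ≤ ((m2 + e) * (1 + e) + e) * z := by positivity
    have h3 : 0 ≤ (m2 + e) * C2 := by positivity
    linarith
  · rw [← intervalIntegral.integral_add_adjacent_intervals (hi 0 1) (hi 1 z)]
    have h2 := E1 1 zero_le_one le_rfl
    have h3 : ∫ h in (1:ℝ)..z, cF k y η W δ X h ≤ ∫ h in (1:ℝ)..z, X * ((m2 + e) * B2 k δ h + e) := by
      refine intervalIntegral.integral_mono_on hy1 (hi _ _) ?_ fun h hh => ?_
      · exact (continuous_const.mul ((continuous_const.mul (B2_cont h0)).add continuous_const)).intervalIntegrable _ _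
      · exact E2 h hh.1 (hh.2.trans hzX)
    have h4 : ∫ h in (1:ℝ)..z, X * ((m2 + e) * B2 k δ h + e) =
        X * ((m2 + e) * (∫ h in (1:ℝ)..z, B2 k δ h) + (z - 1) * e) := by
      have hq : Continuous fun h : ℝ => (m2 + e) * B2 k δ h := continuous_const.mul (B2_cont h0)
      rw [intervalIntegral.integral_const_mul, intervalIntegral.integral_add
        (hq.intervalIntegrable _ _) (by simp),
        intervalIntegral.integral_const_mul, intervalIntegral.integral_const, smul_eq_mul]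
    have h5 := E3 z hy1
    rw [h4] at h3
    have h6 : X * ((m2 + e) * (∫ h in (1:ℝ)..z, B2 k δ h) + (z - 1) * e) ≤
        X * ((m2 + e) * ((1 + e) * z + C2) + z * e) := by
      refine mul_le_mul_of_nonneg_left (add_le_add (mul_le_mul_of_nonneg_left h5 hme.le) ?_) hX.le
      nlinarith
    nlinarith

end Run7.h701.LW
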