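import Pool.Agent.Run7.h701.LW.C

set_option autoImplicit false

/-! The law in windows, small exponents: windows of bounded length -/

namespace Run7.h701.LW

open Finset Filter MeasureTheory Topology Complex
open Pool.Agent.N748.MG hiding Phi
open Pool.Agent.N748.MJ Run7.h291.WN Run7.h291.WC

/-- the integral of the power of the maximum, small exponents -/
lemma int_max0 {δ p : ℝ} (h0 : 0 < δ) (hp0 : 0 ≤ p) (hp : p < 1) {z : ℝ} (hz0 : 0 ≤ z) (hz : z ≤ 1) :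
    ∫ h in (0:ℝ)..z, (max h δ) ^ (-p) ≤ 1 / (1 - p) := by
  have hc : ∀ a b : ℝ, IntervalIntegrable (fun h : ℝ => (max h δ) ^ (-p)) volume a b := by
    intro a b
    refine Continuous.intervalIntegrable ?_ a b
    refine Continuous.rpow_const (by fun_prop) fun x => Or.inl ?_
    exact (lt_of_lt_of_le h0 (le_max_right x δ)).ne'
  have hm : ∫ h in (0:ℝ)..z, (max h δ) ^ (-p) ≤ ∫ h in (0:ℝ)..1, (max h δ) ^ (-p) := by
    refine intervalIntegral.integral_mono_interval le_rfl hz0 hz ?_ (hc _ _)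
    exact Filter.Eventually.of_forall fun h => Real.rpow_nonneg (le_trans h0.le (le_max_right _ _)) _
  refine hm.trans ?_
  have hi : IntervalIntegrable (fun h : ℝ => h ^ (-p)) volume 0 1 :=
    intervalIntegral.intervalIntegrable_rpow' (by linarith)
  have h2 : ∫ h in (0:ℝ)..1, (max h δ) ^ (-p) ≤ ∫ h in (0:ℝ)..1, h ^ (-p) := by
    refine intervalIntegral.integral_mono_on_of_le_Ioo zero_le_one (hc _ _) hi fun h hh => ?_
    exact Real.rpow_le_rpow_of_nonpos hh.1 (le_max_left _ _) (by linarith)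
  refine h2.trans (le_of_eq ?_)
  rw [integral_rpow (Or.inl (by linarith)), Real.one_rpow, Real.zero_rpow (by linarith)]
  congr 1
  · ring
  · ring

/-- the mean square over windows of bounded length -/
lemma winF (hM : S_MNB) (hLaw : S_LAW) (k : ℝ) (hk0 : 0 < k) (hk1 : 2 * k ^ 2 < 1) (y η W : ℝ) (hη : 0 < η)
    (hW : k ^ 2 + 1 ≤ W) (ε : ℝ) (hε : 0 < ε) : ∃ l : ℝ, 1 ≤ l ∧ Ev fun X δ =>
    ∫ t in (0:ℝ)..X, (Av l (fun u => gF k y η W δ u / mm y η) t - 1) ^ 2 ≤ ε * X := by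
  have hW0 : 0 ≤ W := by nlinarith [sq_nonneg k]
  have hm0 : 0 < mm y η := mm_pos hη
  set m : ℝ := mm y η with hm
  have hm1 : m ≤ 1 := mm_le y η
  set e : ℝ := min (min (ε * m ^ 2 / 20) 1) (min (ε * m / 20) ε) with he
  have hm2 : 0 < m ^ 2 := by positivity
  have he0 : 0 < e := lt_min (lt_min (by positivity) one_pos) (lt_min (by positivity) hε)
  have he1 : e ≤ 1 := (min_le_left _ _).trans (min_le_right _ _)
  have he2 : e ≤ ε * m ^ 2 / 20 := (min_le_left _ _).trans (min_le_left _ _)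
  have he3 : e ≤ ε := (min_le_right _ _).trans (min_le_right _ _)
  have he4 : e ≤ ε * m / 20 := (min_le_right _ _).trans (min_le_left _ _)
  obtain ⟨C1, hC1, E1⟩ := tpF_up k y η W hk0 hη hW0
  obtain ⟨C2, δ0, hC2, hδ0, E3⟩ := hM k hk0 e he0
  have E2 := tpF_far hLaw k y η W 1 hk0 hη hW0 one_pos e he0
  have E4 := mean_chi hLaw k y η W hk0 hη hW e he0
  have h1p : 0 < 1 - 2 * k ^ 2 := by linarith
  set b : ℝ := C1 * (1 / (1 - 2 * k ^ 2)) with hb
  have hb0 : 0 ≤ b := by positivity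
  set b2 : ℝ := (b + (m ^ 2 + e) * C2) / m ^ 2 with hb2
  have hb20 : 0 ≤ b2 := by positivity
  set l : ℝ := max 1 (10 * b2 / ε) with hl
  have hl1 : 1 ≤ l := le_max_left _ _
  have hl2 : 10 * b2 / ε ≤ l := le_max_right _ _
  have hl0 : 0 < l := by linarith
  refine ⟨l, hl1, ?_⟩
  refine (((((((E1.and E2).and E4).and (Ev.of_le hδ0)).and (Ev.of_le (show 0 < 1 / l by positivity))).and
    (Ev.win (D := 2 * W) (c := e / l) (e := 1) (by positivity) one_pos)).and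
    (Ev.win (D := W) (c := e / l) (e := 1) (by positivity) one_pos))).mono ?_
  rintro X δ hX1 h0 h1 ⟨⟨⟨⟨⟨⟨E1, E2⟩, E4⟩, hδ⟩, hδl⟩, w2⟩, w3⟩
  have hX0 : 0 < X := by linarith
  rw [Real.rpow_one] at w2 w3
  have hlδ : l ≤ δ ^ (-(1:ℝ)) := by
    rw [Real.rpow_neg_one, le_inv_comm₀ hl0 h0, ← one_div]
    exact hδl
  set g : ℝ → ℝ := fun u => gF k y η W δ u / m with hg
  have hgc : Continuous g := (gF_cont hk0.le hη.le h1).div_const m
  have hg0 : ∀ u, 0 ≤ g u := fun u => div_nonneg (gF_nn h0.le u) hm0.le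
  set M : ℝ := δ ^ (-W) / m with hMd
  have hM0 : 0 < M := div_pos (Real.rpow_pos_of_pos h0 _) hm0
  have hgM : ∀ u, g u ≤ M := fun u =>
    div_le_div_of_nonneg_right ((gF_le h0.le u).trans (FP_le' u)) hm0.le
  have hcor : ∀ u, ∫ t in (0:ℝ)..X, g t * g (t + u) = cF k y η W δ X u / m ^ 2 := by
    intro u
    unfold cF
    rw [← intervalIntegral.integral_div]
    refine intervalIntegral.integral_congr fun t _ => ?_
    rw [hg]
    simp only
    rw [div_mul_div_comm, sq]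
  have hone : ∀ x : ℝ, 0 ≤ x → x ≤ 1 → ∫ h in (0:ℝ)..x, cF k y η W δ X h ≤ X * b := by
    intro x hx hx1
    have hmc : Continuous fun h : ℝ => C1 * (X * (max h δ) ^ (-(2 * k ^ 2))) := by
      refine continuous_const.mul (continuous_const.mul (Continuous.rpow_const (by fun_prop) fun x => Or.inl ?_))
      exact (lt_of_lt_of_le h0 (le_max_right x δ)).ne'
    calc ∫ h in (0:ℝ)..x, cF k y η W δ X h ≤ ∫ h in (0:ℝ)..x, C1 * (X * (max h δ) ^ (-(2 * k ^ 2))) := by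
          refine intervalIntegral.integral_mono_on hx ((cF_cont hk0.le hη.le h1).intervalIntegrable _ _)
            (hmc.intervalIntegrable _ _) fun h hh => ?_
          exact E1 h hh.1 (hh.2.trans hx1)
      _ = C1 * (X * ∫ h in (0:ℝ)..x, (max h δ) ^ (-(2 * k ^ 2))) := by
          rw [intervalIntegral.integral_const_mul, intervalIntegral.integral_const_mul]
      _ ≤ C1 * (X * (1 / (1 - 2 * k ^ 2))) := by
          refine mul_le_mul_of_nonneg_left (mul_le_mul_of_nonneg_left ?_ hX0.le) hC1.le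
          exact int_max0 h0 (by positivity) hk1 hx hx1
      _ = X * b := by
          rw [hb]
          ring
  have hprim : ∀ z ∈ Set.Icc 0 l, ∫ u in (0:ℝ)..z, ∫ t in (0:ℝ)..X, g t * g (t + u) ≤
      X * ((((m ^ 2 + e) * (1 + e) + e) / m ^ 2) * z + b2) := by
    intro z hz
    simp_rw [hcor]
    rw [intervalIntegral.integral_div, div_le_iff₀ hm2]
    have h2 := primF_le (k := k) (y := y) (η := η) (W := W) (δ := δ) (X := X)
      (b := b) (m2 := m ^ 2) (C2 := C2) (D := δ ^ (-(1:ℝ))) (e := e) hk0 hη h0 h1 hX0 he0 hb0 hm2.le hC2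
      hone E2 (fun x hx => E3 δ h0 hδ x hx) hz.1 (hz.2.trans hlδ)
    refine h2.trans (le_of_eq ?_)
    rw [hb2]
    field_simp
  have hmean : (1 - e / m) * X ≤ ∫ t in (0:ℝ)..X, g t := by
    rw [hg]
    simp only
    rw [intervalIntegral.integral_div, le_div_iff₀ hm0]
    have h5 := (abs_le.1 E4).1
    calc (1 - e / m) * X * m = (m - e) * X := by field_simp
      _ ≤ ∫ t in (0:ℝ)..X, gF k y η W δ t := by
          unfold gF
          linarith
  have hdev := dev_le (f := g) (M := M) (X := X) (H := l) (a := ((m ^ 2 + e) * (1 + e) + e) / m ^ 2)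
    (b := b2) (e := e / m) hgc hg0 hgM hX0 hl0 hprim hmean
  unfold Av
  refine hdev.trans ?_
  have hm21 : m ^ 2 ≤ 1 := pow_le_one₀ hm0.le hm1
  have t1 : ((m ^ 2 + e) * (1 + e) + e) / m ^ 2 ≤ 1 + ε / 5 := by
    rw [div_le_iff₀ hm2]
    have q1 : m ^ 2 * e ≤ 1 * e := mul_le_mul_of_nonneg_right hm21 he0.le
    have q2 : e * e ≤ 1 * e := mul_le_mul_of_nonneg_right he1 he0.le
    nlinarith
  have t2 : 2 * b2 / l ≤ ε / 5 := by
    rw [div_le_iff₀ hl0]
    rw [div_le_iff₀ hε] at hl2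
    linarith
  have t3 : l * M ^ 2 / X ≤ ε / 5 := by
    rw [div_le_iff₀ hX0, hMd, div_pow, mul_div_assoc', div_le_iff₀ hm2]
    have h2 : (δ ^ (-W)) ^ 2 = δ ^ (-(2 * W)) := by
      rw [sq, ← Real.rpow_add h0]
      congr 1
      ring
    rw [h2]
    have h3 : l * δ ^ (-(2 * W)) ≤ e * X := by
      have := mul_le_mul_of_nonneg_left w2 hl0.le
      refine this.trans (le_of_eq ?_)
      field_simp
    have h4 : e * X ≤ ε * m ^ 2 / 20 * X := mul_le_mul_of_nonneg_right he2 hX0.le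
    have h5 : 0 ≤ ε * m ^ 2 * X := by positivity
    linarith
  have t4 : 2 * (e / m) ≤ ε / 5 := by
    rw [← mul_div_assoc, div_le_iff₀ hm0]
    linarith
  have t5 : 2 * l * M / X ≤ ε / 5 := by
    rw [div_le_iff₀ hX0, hMd, mul_div_assoc', div_le_iff₀ hm0]
    have h3 : l * δ ^ (-W) ≤ e * X := by
      have := mul_le_mul_of_nonneg_left w3 hl0.le
      refine this.trans (le_of_eq ?_)
      field_simp
    have h4 : e * X ≤ ε * m / 20 * X := mul_le_mul_of_nonneg_right he4 hX0.le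
    have h5 : 0 ≤ ε * m * X := by positivity
    linarith
  calc X * (((m ^ 2 + e) * (1 + e) + e) / m ^ 2 + 2 * b2 / l + l * M ^ 2 / X - 1 +
      2 * (e / m) + 2 * l * M / X) ≤ X * (5 * (ε / 5)) := by
        refine mul_le_mul_of_nonneg_left ?_ hX0.le
        linarith
    _ = ε * X := by ring

/-- windows at one level -/
lemma lvlF (hM : S_MNB) (hLaw : S_LAW) (k D : ℝ) (hk0 : 0 < k) (hk1 : 2 * k ^ 2 < 1) (y η τ ε : ℝ) (hη : 0 < η)
    (hτ : 0 < τ) (hτ1 : τ ≤ 1) (hε : 0 < ε) : ∃ H0 : ℝ, 0 < H0 ∧ Ev fun X δ =>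
    volume {t : ℝ | 0 ≤ t ∧ t ≤ X ∧ ∃ H : ℝ, H0 ≤ H ∧ H ≤ δ ^ (-D) ∧
      τ ≤ |Cw k y η δ t H - mm y η|} ≤ ENNReal.ofReal (ε * X) := by
  set W : ℝ := k ^ 2 + 1 with hW
  have hm0 : 0 < mm y η := mm_pos hη
  set m : ℝ := mm y η with hm
  have hm1 : m ≤ 1 := mm_le y η
  set s : ℝ := min (τ * ε / 192) (ε / 8) with hs
  have hs0 : 0 < s := lt_min (by positivity) (by positivity)
  obtain ⟨l, hl1, Hw⟩ := winF hM hLaw k hk0 hk1 y η W hη le_rfl (s ^ 2) (by positivity)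
  have hl0 : 0 < l := by linarith
  refine ⟨16 * l / τ, by positivity, ?_⟩
  refine (((Hw.up.and (Ev.win (D := 0) (c := 1 / (2 * l)) (e := 1) (by positivity) one_pos)).and
    (Ev.win (D := D) (c := 1 / 2) (e := 1) (by norm_num) one_pos)).and (FP_chi k y η W hk0 hη le_rfl)).mono ?_
  rintro X δ hX1 h0 h1 ⟨⟨⟨Hw, w1⟩, w2⟩, hFP⟩
  rw [Real.rpow_one] at w1 w2
  rw [neg_zero, Real.rpow_zero] at w1
  have hX0 : 0 < X := by linarith
  have hlX : l ≤ X / 2 := by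
    have h2 : 1 / (2 * l) * X = X / 2 / l := by
      field_simp
    rw [h2, le_div_iff₀ hl0] at w1
    linarith
  have E1 := Hw (2 * X) (by linarith)
  set f : ℝ → ℝ := gF k y η W δ with hf
  have hfc : Continuous f := gF_cont hk0.le hη.le h1
  have hf0 : ∀ u, 0 ≤ f u := fun u => gF_nn h0.le u
  have hgc : Continuous fun u => f u / m := hfc.div_const m
  have hE1 : ∫ t in (0:ℝ)..(2 * X), |Av l (fun u => f u / m) t - 1| ≤ s * (2 * X) :=
    mean_of_sq (g := fun t => Av l (fun u => f u / m) t - 1)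
      ((Av_cont hgc).sub continuous_const) hs0 (by linarith) E1
  have hE2 : ∫ t in (0:ℝ)..(2 * X), (f t - f t) ≤ 0 * (2 * X) := by
    simp
  have hmain := asm (f := f) (F := f) (Z := fun u => Zk k δ u * chi k y η δ u) (X := X) (l := l)
    (m := m) (s := s) (τ := τ)
    (ε := ε) (q := 0) (Hlo := 16 * l / τ) (Hhi := δ ^ (-D)) (B := ∅) hfc hfc hf0 (fun u => le_rfl) hX0
    hl0 hlX hm0 hm1 hτ hτ1 hε (min_le_left _ _) (min_le_right _ _) hE1 hE2
    le_rfl (by positivity) (le_of_eq (by field_simp)) (w2.trans (by linarith)) (by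
      intro t t0 t1 htB u hu
      exact (hFP u).2.symm)
  have hsub : {t : ℝ | 0 ≤ t ∧ t ≤ X ∧ ∃ H : ℝ, 16 * l / τ ≤ H ∧ H ≤ δ ^ (-D) ∧
      τ ≤ |Cw k y η δ t H - m|} ⊆
      {t : ℝ | 0 ≤ t ∧ t ≤ X ∧ ∃ H : ℝ, 16 * l / τ ≤ H ∧ H ≤ δ ^ (-D) ∧
      τ / 2 ≤ |(1 / H) * (∫ u in t..(t + H), Zk k δ u * chi k y η δ u) - m|} := by
    rintro t ⟨t0, t1, H, hH1, hH2, hH3⟩
    exact ⟨t0, t1, H, hH1, hH2, le_trans (by linarith) hH3⟩
  refine (measure_mono hsub).trans (hmain.trans ?_)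
  rw [measure_empty, add_zero]
  refine ENNReal.ofReal_le_ofReal (mul_le_mul_of_nonneg_right ?_ hX0.le)
  rw [mul_zero, zero_div]
  linarith

/-- the full mean -/
lemma topF (hM : S_MNB) (hLaw : S_LAW) (k D : ℝ) (hk0 : 0 < k) (hk1 : 2 * k ^ 2 < 1) (hD : 0 ≤ D) (ε : ℝ) (hε : 0 < ε)
    (hε1 : ε ≤ 1) : ∃ H0 : ℝ, 0 < H0 ∧ Ev fun X δ =>
    volume {t : ℝ | 0 ≤ t ∧ t ≤ X ∧ ∃ H : ℝ, H0 ≤ H ∧ H ≤ δ ^ (-D) ∧
      ε ≤ |(1 / H) * (∫ u in t..(t + H), Zk k δ u) - 1|} ≤ ENNReal.ofReal (ε * X) := by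
  obtain ⟨W0, HS⟩ := sup_bd k D hk0 hD
  set W : ℝ := max W0 (2 * k ^ 2 + 1) with hW
  have hW2 : k ^ 2 + 1 ≤ W := le_trans (by nlinarith [sq_nonneg k]) (le_max_right W0 (2 * k ^ 2 + 1))
  set r : ℝ := ε ^ 2 / 800 with hr
  have hr0 : 0 < r := by positivity
  obtain ⟨B0, hB0⟩ := eventually_atTop.1 ((tendsto_order.1 Phi_top).1 (1 - r) (by linarith))
  set y : ℝ := B0 with hy
  set m : ℝ := mm y 1 with hm
  have hm0 : 0 < m := mm_pos one_pos
  have hm1 : m ≤ 1 := mm_le y 1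
  have hmr : 1 - r ≤ m := (hB0 y le_rfl).le.trans (Phi_le_mm one_pos)
  set s : ℝ := min (ε * ε / 192) (ε / 8) with hs
  have hs0 : 0 < s := lt_min (by positivity) (by positivity)
  obtain ⟨l, hl1, Hw⟩ := winF hM hLaw k hk0 hk1 y 1 W one_pos hW2 (s ^ 2) (by positivity)
  have hl0 : 0 < l := by linarith
  refine ⟨16 * l / ε, by positivity, ?_⟩
  refine ((((((Hw.up.and (mean_chi hLaw k y 1 W hk0 one_pos hW2 r hr0).up).and
    (means 1 le_rfl k 1 W hk0 one_pos (le_max_right _ _) r hr0).up).and (HS W (le_max_left _ _) (ε / 4) (by positivity))).and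
    (Ev.win (D := 0) (c := 1 / (2 * l)) (e := 1) (by positivity) one_pos)).and
    (Ev.win (D := D) (c := 1 / 2) (e := 1) (by norm_num) one_pos))).mono ?_
  rintro X δ hX1 h0 h1 ⟨⟨⟨⟨⟨Hw, Hm⟩, Hc⟩, HS⟩, w1⟩, w2⟩
  rw [Real.rpow_one] at w1 w2
  rw [neg_zero, Real.rpow_zero] at w1
  have hX0 : 0 < X := by linarith
  have hlX : l ≤ X / 2 := by
    have h2 : 1 / (2 * l) * X = X / 2 / l := by
      field_simp
    rw [h2, le_div_iff₀ hl0] at w1
    linarith
  have E1 := Hw (2 * X) (by linarith)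
  have E2 := (abs_le.1 (Hm (2 * X) (by linarith))).1
  have E3 := (Hc (2 * X) (by linarith)).1
  set f : ℝ → ℝ := gF k y 1 W δ with hf
  have hfc : Continuous f := gF_cont hk0.le zero_le_one h1
  have hf0 : ∀ u, 0 ≤ f u := fun u => gF_nn h0.le u
  set F : ℝ → ℝ := FP k W δ with hF
  have hFc : Continuous F := FP_cont hk0.le h1
  have hfF : ∀ u, f u ≤ F u := fun u => gF_le h0.le u
  have hgc : Continuous fun u => f u / m := hfc.div_const m
  have hE1 : ∫ t in (0:ℝ)..(2 * X), |Av l (fun u => f u / m) t - 1| ≤ s * (2 * X) :=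
    mean_of_sq (g := fun t => Av l (fun u => f u / m) t - 1)
      ((Av_cont hgc).sub continuous_const) hs0 (by linarith) E1
  have hE2 : ∫ t in (0:ℝ)..(2 * X), (F t - f t) ≤ (3 * r) * (2 * X) := by
    rw [intervalIntegral.integral_sub (hFc.intervalIntegrable _ _) (hfc.intervalIntegrable _ _)]
    have h2 : (1 - r) * (2 * X) ≤ m * (2 * X) := mul_le_mul_of_nonneg_right hmr (by linarith)
    have h3 : ∫ t in (0:ℝ)..(2 * X), f t = ∫ t in (0:ℝ)..(2 * X), FP k W δ t * chi k y 1 δ t := rfl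
    rw [h3]
    linarith
  set B : Set ℝ := {t : ℝ | 0 ≤ t ∧ t ≤ X ∧ ∃ u : ℝ, t ≤ u ∧ u ≤ t + δ ^ (-D) ∧ δ ^ (-W) < Zk k δ u} with hBd
  have hmain := asm (f := f) (F := F) (Z := Zk k δ) (X := X) (l := l) (m := m) (s := s) (τ := ε)
    (ε := ε) (q := 3 * r) (Hlo := 16 * l / ε) (Hhi := δ ^ (-D)) (B := B) hfc hFc hf0 hfF hX0
    hl0 hlX hm0 hm1 hε hε1 hε (min_le_left _ _) (min_le_right _ _) hE1 hE2
    (by positivity) (by positivity) (le_of_eq (by field_simp)) (w2.trans (by linarith)) (by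
      intro t t0 t1 htB u hu
      have h2 : Zk k δ u ≤ δ ^ (-W) := by
        by_contra h
        exact htB ⟨t0, t1, u, hu.1, hu.2, not_le.1 h⟩
      show Zk k δ u = FP k W δ u
      unfold FP
      rw [min_eq_left h2])
  have hsub : {t : ℝ | 0 ≤ t ∧ t ≤ X ∧ ∃ H : ℝ, 16 * l / ε ≤ H ∧ H ≤ δ ^ (-D) ∧
      ε ≤ |(1 / H) * (∫ u in t..(t + H), Zk k δ u) - 1|} ⊆
      {t : ℝ | 0 ≤ t ∧ t ≤ X ∧ ∃ H : ℝ, 16 * l / ε ≤ H ∧ H ≤ δ ^ (-D) ∧
      ε / 2 ≤ |(1 / H) * (∫ u in t..(t + H), Zk k δ u) - m|} := by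
    rintro t ⟨t0, t1, H, hH1, hH2, hH3⟩
    refine ⟨t0, t1, H, hH1, hH2, ?_⟩
    have hrε : r ≤ ε / 2 := by
      rw [hr]
      nlinarith
    have g1 : |m - 1| ≤ ε / 2 := by
      rw [abs_le]
      constructor <;> linarith
    have g2 := abs_sub_le ((1 / H) * (∫ u in t..(t + H), Zk k δ u)) m 1
    linarith
  refine (measure_mono hsub).trans (hmain.trans ((add_le_add le_rfl HS).trans ?_))
  rw [← ENNReal.ofReal_add (by positivity) (by positivity)]
  refine ENNReal.ofReal_le_ofReal ?_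
  have h5 : 48 * (3 * r) / ε ≤ ε / 4 := by
    rw [div_le_iff₀ hε, hr]
    nlinarith
  have h7 : (ε / 2 + 48 * (3 * r) / ε) * X + ε / 4 * X ≤ (ε / 2 + ε / 4) * X + ε / 4 * X := by
    refine add_le_add (mul_le_mul_of_nonneg_right (by linarith) hX0.le) le_rfl
  refine h7.trans (le_of_eq ?_)
  ring

/-- a finite number of conditions with a common length -/
lemma ev_finH {P : ℕ → ℝ → ℝ → ℝ → Prop} (hP : ∀ j H0 H1 X δ, H0 ≤ H1 → P j H0 X δ → P j H1 X δ) (n : ℕ)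
    (h : ∀ j < n, ∃ H0 : ℝ, 0 < H0 ∧ Ev (P j H0)) : ∃ H0 : ℝ, 0 < H0 ∧ Ev fun X δ => ∀ j < n, P j H0 X δ := by
  induction n with
  | zero =>
    exact ⟨1, one_pos, (Ev.of_ev (P := fun _ => True) (Eventually.of_forall fun _ => trivial)).mono
      fun X δ _ _ _ _ j hj => absurd hj (Nat.not_lt_zero j)⟩
  | succ n ih =>
    obtain ⟨Ha, ha, Ea⟩ := ih fun j hj => h j (by omega)
    obtain ⟨Hb, hb, Eb⟩ := h n (by omega)
    refine ⟨max Ha Hb, lt_max_of_lt_left ha, (Ea.and Eb).mono ?_⟩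
    rintro X δ _ _ _ ⟨h1, h2⟩ j hj
    rcases Nat.lt_succ_iff_lt_or_eq.1 hj with h3 | h3
    · exact hP j _ _ X δ (le_max_left _ _) (h1 j h3)
    · rw [h3]
      exact hP n _ _ X δ (le_max_right _ _) h2

/-- the law in all windows of length at least `H0`, small exponents -/
theorem law_s (hM : S_MNB) (hLaw : S_LAW) (k D : ℝ) (hk0 : 0 < k) (hk1 : 2 * k ^ 2 < 1) (hD : 0 ≤ D) (ε : ℝ)
    (hε : 0 < ε) : ∃ H0 : ℝ, 0 < H0 ∧ Ev fun X δ =>
    volume {t : ℝ | 0 ≤ t ∧ t ≤ X ∧ ∃ H : ℝ, H0 ≤ H ∧ H ≤ δ ^ (-D) ∧ ∃ y : ℝ,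
      ε ≤ |Jw k y δ t H - Phi y| ∨ ε ≤ |(1 / H) * (∫ u in t..(t + H), Zk k δ u) - 1|} ≤ ENNReal.ofReal (ε * X) := by
  set e0 : ℝ := min ε 1 with he0
  have he00 : 0 < e0 := lt_min hε one_pos
  have he01 : e0 ≤ 1 := min_le_right _ _
  have he0ε : e0 ≤ ε := min_le_left _ _
  set e : ℝ := e0 / 32 with he
  set η : ℝ := e0 / 56 with hη
  set τ : ℝ := e0 / 8 with hτ
  have hep : 0 < e := by positivity
  have hηp : 0 < η := by positivity
  have hτp : 0 < τ := by positivity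
  obtain ⟨A3, H3⟩ := eventually_atTop.1 ((tendsto_order.1 Phi_top).1 (1 - e) (by linarith))
  obtain ⟨A4, H4⟩ := eventually_atBot.1 ((tendsto_order.1 Phi_bot).2 e hep)
  set A : ℝ := max A3 (4 * η - A4) with hA
  have hA3 : A3 ≤ A := le_max_left _ _
  have hA4 : 4 * η - A4 ≤ A := le_max_right _ _
  obtain ⟨J, hJ⟩ := exists_nat_ge (2 * A / η)
  rw [div_le_iff₀ hηp] at hJ
  have hJ0 : (0:ℝ) < (J:ℝ) + 1 := by positivity
  obtain ⟨Ha, hHa, Ea⟩ := ev_finH (P := fun j H0 X δ => volume {t : ℝ | 0 ≤ t ∧ t ≤ X ∧ ∃ H : ℝ,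
      H0 ≤ H ∧ H ≤ δ ^ (-D) ∧ τ ≤ |Cw k (-A + j * η) η δ t H - mm (-A + j * η) η|} ≤
        ENNReal.ofReal (e0 / 2 / (J + 1) * X)) (fun j H0 H1 X δ h01 h => le_trans (measure_mono (by
          rintro t ⟨t0, t1, H, hH, h2⟩
          exact ⟨t0, t1, H, h01.trans hH, h2⟩)) h) (J + 1)
    (fun j _ => lvlF hM hLaw k D hk0 hk1 (-A + j * η) η τ (e0 / 2 / (J + 1)) hηp hτp (by linarith) (by positivity))
  obtain ⟨Hb, hHb, Eb⟩ := topF hM hLaw k D hk0 hk1 hD e hep (by linarith)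
  refine ⟨max Ha Hb, lt_max_of_lt_left hHa, (Ea.and Eb).mono ?_⟩
  rintro X δ hX1 h0 h1 ⟨E1, E2⟩
  have hX0 : 0 < X := by linarith
  have hsub : {t : ℝ | 0 ≤ t ∧ t ≤ X ∧ ∃ H : ℝ, max Ha Hb ≤ H ∧ H ≤ δ ^ (-D) ∧ ∃ y : ℝ,
      ε ≤ |Jw k y δ t H - Phi y| ∨ ε ≤ |(1 / H) * (∫ u in t..(t + H), Zk k δ u) - 1|} ⊆
      (⋃ j ∈ Finset.range (J + 1), {t : ℝ | 0 ≤ t ∧ t ≤ X ∧ ∃ H : ℝ,
      Ha ≤ H ∧ H ≤ δ ^ (-D) ∧ τ ≤ |Cw k (-A + j * η) η δ t H - mm (-A + j * η) η|}) ∪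
      {t : ℝ | 0 ≤ t ∧ t ≤ X ∧ ∃ H : ℝ, Hb ≤ H ∧ H ≤ δ ^ (-D) ∧
      e ≤ |(1 / H) * (∫ u in t..(t + H), Zk k δ u) - 1|} := by
    rintro t ⟨t0, t1, H, hH, hHD, y, hy⟩
    have hHa' : Ha ≤ H := (le_max_left _ _).trans hH
    have hHb' : Hb ≤ H := (le_max_right _ _).trans hH
    have hH0 : 0 < H := lt_of_lt_of_le hHa hHa'
    by_contra hcon
    simp only [Set.mem_union, not_or] at hcon
    obtain ⟨c1, c2⟩ := hcon
    have d2 : |(1 / H) * (∫ u in t..(t + H), Zk k δ u) - 1| < e := by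
      by_contra h
      exact c2 ⟨t0, t1, H, hHb', hHD, not_lt.1 h⟩
    have d1 : ∀ j : ℕ, j ≤ J → |Cw k (-A + j * η) η δ t H - mm (-A + j * η) η| < τ := by
      intro j hj
      by_contra h
      refine c1 (Set.mem_biUnion (show j ∈ ((Finset.range (J + 1) : Finset ℕ) : Set ℕ) from by
        rw [Finset.mem_coe, Finset.mem_range]
        omega) ⟨t0, t1, H, hHa', hHD, not_lt.1 h⟩)
    rcases hy with hy | hy
    · set x : ℝ := max (y + 5 * η) (-A + 4 * η) with hx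
      have key := lev (I := fun y => Jw k y δ t H) (c := fun j => Cw k (-A + j * η) η δ t H)
        (M := (1 / H) * (∫ u in t..(t + H), Zk k δ u)) (x := x) (A := A) (η := η) (e := e) (τ := τ) (J := J)
        hηp hep (fun y => Jw_nn h0.le hH0) (fun a b hab => Jw_mono hk0.le h0.le h1 hH0 hab)
        (fun y => Jw_le hk0.le h0.le h1 hH0) (fun j => Jw_le_Cw hk0.le hηp.le h0.le h1 hH0)
        (fun j => Cw_le_Jw hk0.le hηp h0 h1 hH0) (fun j hj _ => d1 j hj) hτp (by linarith)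
        (fun _ => by linarith [(abs_lt.1 d2).2]) (fun hx' => by
          have : -A + 4 * η ≤ x := le_max_right _ _
          linarith) (H4 _ (by linarith)).le
        (H3 _ hA3).le y (by
          have : y + 5 * η ≤ x := le_max_left _ _
          linarith)
      have h7 : 2 * e + 2 * η + τ ≤ e0 * (3 / 8) := by
        rw [he, hη, hτ]
        linarith
      have h8 : |Jw k y δ t H - Phi y| ≤ 2 * e + 2 * η + τ := key
      linarith
    · linarith
  refine (measure_mono hsub).trans ((measure_union_le _ _).trans ((add_le_add ?_ E2).trans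
    (b := ENNReal.ofReal (e0 / 2 * X) + ENNReal.ofReal (e * X)) ?_))
  · refine (measure_biUnion_finset_le _ _).trans ?_
    refine (Finset.sum_le_card_nsmul _ _ (ENNReal.ofReal (e0 / 2 / (J + 1) * X))
      fun j hj => E1 j (Finset.mem_range.1 hj)).trans ?_
    rw [Finset.card_range, ← ENNReal.ofReal_nsmul]
    refine ENNReal.ofReal_le_ofReal (le_of_eq ?_)
    rw [nsmul_eq_mul]
    push_cast
    field_simp
  · rw [← ENNReal.ofReal_add (by positivity) (by positivity)]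
    refine ENNReal.ofReal_le_ofReal ?_
    rw [← add_mul]
    refine mul_le_mul_of_nonneg_right ?_ hX0.le
    linarith

end Run7.h701.LW
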